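import Mathlib

set_option autoImplicit false

/-! Semidefinite extended formulations. -/

namespace Pool.Agent.H480Z.SDP

/-- `K` has a semidefinite extended formulation of size `r` (it is a projected spectrahedron of
order `r`): `K` is the image under an affine map of the set of all `y` in some `ℝ ^ m` at which an
affine `r × r` matrix pencil is symmetric positive semidefinite. -/
def IsShadow {V : Type} (r : ℕ) (K : Set (V → ℝ)) : Prop :=
  ∃ (m : ℕ) (A : (Fin m → ℝ) →ᵃ[ℝ] Matrix (Fin r) (Fin r) ℝ) (π : (Fin m → ℝ) →ᵃ[ℝ] (V → ℝ)),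
    K = π '' {y | (A y).PosSemidef}

end Pool.Agent.H480Z.SDP
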