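import Pool.Agent.H480Z.SDP.Xor
import Pool.Agent.H480Z.SDP.Defs

set_option autoImplicit false
set_option linter.unusedSectionVars false

/-! Semidefinite relaxations of stable set polytopes. -/

namespace Pool.Agent.H480Z.SDP

open Finset
open Pool.Agent.H550R2.Neg (rowT)
open Pool.Agent.H30R2.NS (A A_apply)

/-- the equation `u` of the group `i` -/
def idx {M n : ℕ} (i : Fin n) (u : Fin M) : Fin (M * n) := finProdFinEquiv (u, i)

theorem exists_rhs {M n k : ℕ} (T : Fin (M * n) × Fin k → Fin n) :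
    ∃ b : Fin (M * n) → ZMod 2, ∀ z : Fin n → ZMod 2,
      M * (univ.filter fun i : Fin n => ∀ u : Fin M, A T z (idx i u) = b (idx i u)).card ≤
        2 * n := by
  classical
  by_contra hcon
  push Not at hcon
  let rows : Finset (Fin n) → Finset (Fin (M * n)) :=
    fun P => ((univ : Finset (Fin M)) ×ˢ P).map finProdFinEquiv.toEmbedding
  have hrows : ∀ P, (rows P).card = M * P.card := by
    intro P
    simp only [rows]
    rw [card_map, card_product, card_univ, Fintype.card_fin]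
  let Fx : (Fin n → ZMod 2) × Finset (Fin n) → Finset (Fin (M * n) → ZMod 2) :=
    fun y => univ.filter fun b => ∀ j ∈ rows y.2, b j = A T y.1 j
  let Y : Finset ((Fin n → ZMod 2) × Finset (Fin n)) := univ.filter fun y => 2 * n < M * y.2.card
  have h1 : (univ : Finset (Fin (M * n) → ZMod 2)) ⊆ Y.biUnion Fx := by
    intro b _
    obtain ⟨z, hz⟩ := hcon b
    rw [mem_biUnion]
    refine ⟨(z, univ.filter fun i : Fin n => ∀ u : Fin M, A T z (idx i u) = b (idx i u)),
      mem_filter.2 ⟨mem_univ _, hz⟩, mem_filter.2 ⟨mem_univ _, fun j hj => ?_⟩⟩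
    simp only [rows] at hj
    rw [mem_map] at hj
    obtain ⟨⟨u, i⟩, h2, rfl⟩ := hj
    exact ((mem_filter.1 (mem_product.1 h2).2).2 u).symm
  have h2 := (card_le_card h1).trans card_biUnion_le
  rw [card_univ, Fintype.card_fun, ZMod.card, Fintype.card_fin] at h2
  have h3 : ∀ y ∈ Y, (Fx y).card * 2 ^ (2 * n + 1) ≤ 2 ^ (M * n) := by
    intro y hy
    have h4 := card_fix (rows y.2) (A T y.1)
    rw [ZMod.card, Fintype.card_fin, hrows] at h4
    have h9 : (Fx y).card * 2 ^ (M * y.2.card) = 2 ^ (M * n) := by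
      rw [← h4]
      congr 2
      ext b
      simp only [Fx, mem_filter]
    rw [← h9]
    exact Nat.mul_le_mul_left _ (Nat.pow_le_pow_right (by norm_num : 0 < 2) (mem_filter.1 hy).2)
  have h5 : Y.card ≤ 2 ^ n * 2 ^ n := by
    refine (card_le_univ _).trans (le_of_eq ?_)
    rw [Fintype.card_prod, Fintype.card_fun, ZMod.card, Fintype.card_fin, Fintype.card_finset,
      Fintype.card_fin]
  have h6 : 2 ^ (M * n) * 2 ^ (2 * n + 1) ≤ 2 ^ n * 2 ^ n * 2 ^ (M * n) := by
    refine (Nat.mul_le_mul_right _ h2).trans ?_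
    rw [sum_mul]
    refine (sum_le_sum h3).trans ?_
    rw [sum_const, smul_eq_mul]
    exact Nat.mul_le_mul_right _ h5
  have h7 : 2 ^ (2 * n + 1) = 2 * (2 ^ n * 2 ^ n) := by ring
  have h8 : 0 < 2 ^ n * 2 ^ n * 2 ^ (M * n) := by positivity
  rw [h7] at h6
  nlinarith

theorem good_groups {M n D c : ℕ} (T : Fin (M * n) × Fin 3 → Fin n)
    (h : (univ.filter fun x : (Fin (M * n) × Fin 3) × (Fin (M * n) × Fin 3) =>
      T x.1 = T x.2).card ≤ c * n) (hD : 2 * c ≤ D) (hD0 : 0 < D) :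
    n ≤ 2 * (univ.filter fun i : Fin n => ∀ p : Fin M × Fin 3,
      (univ.filter fun x => T x = T (idx i p.1, p.2)).card ≤ D).card := by
  classical
  set deg : Fin (M * n) × Fin 3 → ℕ := fun y => (univ.filter fun x => T x = T y).card with hdeg
  have h1 : ∑ y, deg y ≤ c * n := by
    refine le_trans (le_of_eq ?_) h
    simp only [hdeg, card_filter]
    conv_rhs => rw [Fintype.sum_prod_type]
    rw [sum_comm]
  set Bd := univ.filter fun i : Fin n => ¬ ∀ p : Fin M × Fin 3, deg (idx i p.1, p.2) ≤ D with hBd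
  set Hv := univ.filter fun y => D < deg y with hHv
  have h2 : Bd.card ≤ Hv.card := by
    have h3 : Bd ⊆ Hv.image fun y => (finProdFinEquiv.symm y.1).2 := by
      intro i hi
      have h4 := (mem_filter.1 hi).2
      push Not at h4
      obtain ⟨p, hp⟩ := h4
      rw [mem_image]
      refine ⟨(idx i p.1, p.2), mem_filter.2 ⟨mem_univ _, hp⟩, ?_⟩
      simp [idx]
    exact (card_le_card h3).trans card_image_le
  have h4 : Hv.card * D ≤ c * n := by
    calc Hv.card * D = ∑ _y ∈ Hv, D := by rw [sum_const, smul_eq_mul]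
      _ ≤ ∑ y ∈ Hv, deg y := sum_le_sum fun y hy => (mem_filter.1 hy).2.le
      _ ≤ ∑ y, deg y := sum_le_sum_of_subset (subset_univ _)
      _ ≤ c * n := h1
  have h5 := card_filter_add_card_filter_not (s := (univ : Finset (Fin n)))
    (fun i : Fin n => ∀ p : Fin M × Fin 3, deg (idx i p.1, p.2) ≤ D)
  rw [card_univ, Fintype.card_fin] at h5
  have h6 : 2 * Hv.card * D ≤ n * D := by nlinarith
  have h7 : 2 * Hv.card ≤ n := Nat.le_of_mul_le_mul_right h6 hD0
  have h8 : (univ.filter fun i : Fin n => ∀ p : Fin M × Fin 3,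
      deg (idx i p.1, p.2) ≤ D).card + Bd.card = n := h5
  show n ≤ 2 * (univ.filter fun i : Fin n => ∀ p : Fin M × Fin 3, deg (idx i p.1, p.2) ≤ D).card
  omega

theorem size_bound {r d : ℕ} (hd : 2 ≤ d) (h : 1 < 2 * (r : ℝ) ^ 3 / 2 ^ d) {y : ℝ}
    (hy : 6 * y ≤ d) : (2 : ℝ) ^ y ≤ r := by
  have h1 : (2 : ℝ) ^ d < 2 * (r : ℝ) ^ 3 := by
    rwa [lt_div_iff₀ (by positivity), one_mul] at h
  have hdR : (2 : ℝ) ≤ d := by exact_mod_cast hd
  have h2 : ((2 : ℝ) ^ y) ^ 3 ≤ (r : ℝ) ^ 3 := by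
    have h3 : 2 * ((2 : ℝ) ^ y) ^ 3 ≤ (2 : ℝ) ^ d := by
      rw [← Real.rpow_natCast, ← Real.rpow_mul (by norm_num), ← Real.rpow_natCast,
        mul_comm, ← Real.rpow_add_one (by norm_num)]
      apply Real.rpow_le_rpow_of_exponent_le (by norm_num)
      push_cast
      linarith
    linarith
  exact le_of_pow_le_pow_left₀ (by norm_num) (Nat.cast_nonneg r) h2

/-- the vertices of the graph -/
abbrev Vx (M n q : ℕ) : Type :=
  Fin n × (Fin M × Fin 3 → Fin q) × (Fin M × Fin 3 → ZMod 2)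

theorem stab_main (C : ℝ) : ∃ c : ℝ, 0 < c ∧ ∃ Δ N₀ : ℕ, ∀ N ≥ N₀, ∃ G : SimpleGraph (Fin N),
    (∀ v, (G.neighborSet v).ncard ≤ Δ) ∧
    ∀ (r : ℕ) (K : Set (Fin N → ℝ)), IsShadow r K →
      (∀ I : Finset (Fin N), G.IsIndepSet I → (fun v => if v ∈ I then (1 : ℝ) else 0) ∈ K) →
      (∀ W : Finset (Fin N), ∀ p ∈ K, ∃ I ⊆ W, G.IsIndepSet I ∧ ∑ v ∈ W, p v ≤ C * I.card) →
      (2 : ℝ) ^ (c * N) ≤ r := by
  classical
  obtain ⟨C0, hC0⟩ := exists_nat_gt (4 * |C|)
  have hC0pos : 0 < C0 := by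
    have : (0 : ℝ) < C0 := lt_of_le_of_lt (by positivity) hC0
    exact_mod_cast this
  set M := 2 * C0 with hM
  obtain ⟨K0, hK0, hsys⟩ := exists_system M (by omega)
  set q := 65536 * K0 ^ 4 with hq
  set Kv := q ^ (M * 3) * 2 ^ (M * 3) with hKv
  have hKv0 : 0 < Kv := by positivity
  set D := 72 * M ^ 2 with hD
  refine ⟨1 / (12 * Kv * K0), by positivity, M * 3 * D * Kv, Kv * (2 * K0), fun N hN => ?_⟩
  set n := N / Kv with hn
  have hn1 : 2 * K0 ≤ n := by
    rw [hn, Nat.le_div_iff_mul_le hKv0]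
    linarith
  have hnN : Kv * n ≤ N := Nat.mul_div_le N _
  have hNn : N < Kv * (n + 1) := Nat.lt_mul_div_succ N hKv0
  obtain ⟨d, t, hd1, hdn, hnd, hMt, T, hlow, hgap, hcoll⟩ := hsys n (by omega)
  obtain ⟨b, hb⟩ := exists_rhs T
  obtain ⟨a, ha, ha0, hpsd, hJ⟩ := exists_moments T hlow hgap b
  let var : Fin n → Fin M × Fin 3 → Fin n := fun i p => T (idx i p.1, p.2)
  set Gd := univ.filter fun i : Fin n => ∀ p : Fin M × Fin 3,
    (univ.filter fun x => T x = T (idx i p.1, p.2)).card ≤ D with hGd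
  have hGdc : n ≤ 2 * Gd.card :=
    good_groups (c := 36 * M ^ 2) T hcoll (by omega) (by positivity)
  have hcardV : Fintype.card (Vx M n q) = n * Kv := by
    simp only [Vx, Fintype.card_prod, Fintype.card_fun, Fintype.card_fin, ZMod.card, hKv]
  obtain ⟨emb⟩ : Nonempty (Vx M n q ↪ Fin N) :=
    Function.Embedding.nonempty_of_card_le (by rw [hcardV, Fintype.card_fin]; linarith)
  let Cf : Vx M n q → Vx M n q → Prop := fun v v' => v.1 ∈ Gd ∧ v'.1 ∈ Gd ∧
    ∃ p p', var v.1 p = var v'.1 p' ∧ v.2.1 p = v'.2.1 p' ∧ v.2.2 p ≠ v'.2.2 p'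
  have hCf : ∀ v v', Cf v v' → Cf v' v := by
    rintro v v' ⟨h1, h2, p, p', h3, h4, h5⟩
    exact ⟨h2, h1, p', p, h3.symm, h4.symm, h5.symm⟩
  let G : SimpleGraph (Fin N) :=
    SimpleGraph.fromRel fun x y => ∃ v v', emb v = x ∧ emb v' = y ∧ Cf v v'
  have hG : ∀ x y, G.Adj x y → ∃ v v', emb v = x ∧ emb v' = y ∧ Cf v v' := by
    intro x y h
    rw [SimpleGraph.fromRel_adj] at h
    rcases h.2 with h1 | ⟨v, v', h1, h2, h3⟩
    · exact h1
    · exact ⟨v', v, h2, h1, hCf _ _ h3⟩
  have hG' : ∀ v v', v ≠ v' → Cf v v' → G.Adj (emb v) (emb v') := by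
    intro v v' h1 h2
    rw [SimpleGraph.fromRel_adj]
    exact ⟨fun h => h1 (emb.injective h), Or.inl ⟨v, v', rfl, rfl, h2⟩⟩
  refine ⟨G, fun x => ?_, fun r K hK hI hW => ?_⟩
  · by_cases hx : ∃ v, emb v = x ∧ v.1 ∈ Gd
    · obtain ⟨v, rfl, hv⟩ := hx
      let Nb : Finset (Fin n) := (univ : Finset (Fin M × Fin 3)).biUnion fun p =>
        (univ.filter fun x => T x = T (idx v.1 p.1, p.2)).image
          fun y => (finProdFinEquiv.symm y.1).2
      have hNb : Nb.card ≤ M * 3 * D := by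
        refine card_biUnion_le.trans ?_
        refine (sum_le_sum (g := fun _ => D) fun p _ =>
          card_image_le.trans ((mem_filter.1 hv).2 p)).trans (le_of_eq ?_)
        rw [sum_const, card_univ, Fintype.card_prod, Fintype.card_fin, Fintype.card_fin,
          smul_eq_mul]
      have h1 : G.neighborSet (emb v) ⊆
          ((Nb ×ˢ (univ : Finset ((Fin M × Fin 3 → Fin q) × (Fin M × Fin 3 → ZMod 2)))).map emb :
            Finset (Fin N)) := by
        intro y hy
        obtain ⟨v0, v', h2, h3, -, -, p, p', h4, -, -⟩ := hG _ _ hy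
        rw [emb.injective h2] at h4
        rw [mem_coe, mem_map]
        refine ⟨v', mem_product.2 ⟨?_, mem_univ _⟩, h3⟩
        rw [mem_biUnion]
        refine ⟨p, mem_univ _, mem_image.2 ⟨(idx v'.1 p'.1, p'.2),
          mem_filter.2 ⟨mem_univ _, h4.symm⟩, ?_⟩⟩
        simp [idx]
      refine (Set.ncard_le_ncard h1 (Finset.finite_toSet _)).trans ?_
      rw [Set.ncard_coe_finset, card_map, card_product, card_univ]
      simp only [Fintype.card_prod, Fintype.card_fun, Fintype.card_fin, ZMod.card]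
      exact Nat.mul_le_mul_right _ hNb
    · have h1 : G.neighborSet x = ∅ := by
        rw [Set.eq_empty_iff_forall_notMem]
        intro y hy
        obtain ⟨v, v', h2, -, h3, -⟩ := hG _ _ hy
        exact hx ⟨v, h2, h3⟩
      rw [h1, Set.ncard_empty]
      exact Nat.zero_le _
  · obtain ⟨m, Am, π, rfl⟩ := hK
    let Ix : (Fin n → Fin q → ZMod 2) → Finset (Vx M n q) := fun x =>
      univ.filter fun v => ∀ p, v.2.2 p = x (var v.1 p) (v.2.1 p)
    have hIx : ∀ x, G.IsIndepSet ((Ix x).map emb : Finset (Fin N)) := by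
      intro x y hy y' hy' _ hadj
      obtain ⟨v, v', h2, h3, -, -, p, p', h4, h5, h6⟩ := hG _ _ hadj
      rw [← h2, mem_coe, mem_map' emb] at hy
      rw [← h3, mem_coe, mem_map' emb] at hy'
      apply h6
      rw [(mem_filter.1 hy).2 p, (mem_filter.1 hy').2 p', h4, h5]
    choose e he heπ using fun x => hI _ (hIx x)
    have hqd : 65536 * n ^ 4 ≤ q * d ^ 4 := by
      rw [hq, mul_assoc, ← mul_pow]
      exact Nat.mul_le_mul_left _ (Nat.pow_le_pow_left hnd 4)
    obtain ⟨σ, pt, μ, hpt, hμ0, hμ, hℓ⟩ := shadow_point hd1 hdn hqd a ha ha0 hpsd Am e he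
    let W0 : Finset (Vx M n q) := univ.filter fun v => v.1 ∈ Gd ∧ (∀ p, v.2.1 p = σ (var v.1 p)) ∧
      (∀ u, ∑ l, v.2.2 (u, l) = b (idx v.1 u)) ∧
      ∀ p p', var v.1 p = var v.1 p' → v.2.2 p = v.2.2 p'
    let sat : Fin n → (Fin n → ZMod 2) → Prop := fun i z => ∀ u, A T z (idx i u) = b (idx i u)
    let F : (Fin n → ZMod 2) → ℝ := fun z => ∑ i ∈ Gd, if sat i z then 1 else 0
    let ℓ : (Fin m → ℝ) →ᵃ[ℝ] ℝ :=
      (∑ v ∈ W0.map emb, (LinearMap.proj v : (Fin N → ℝ) →ₗ[ℝ] ℝ)).toAffineMap.comp π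
    have hℓy : ∀ y, ℓ y = ∑ v ∈ W0.map emb, π y v := by
      intro y
      simp only [ℓ, AffineMap.comp_apply, LinearMap.coe_toAffineMap, LinearMap.sum_apply,
        LinearMap.proj_apply]
    have hval : ∀ x, ℓ (e x) = F (fun i => x i (σ i)) := by
      intro x
      rw [hℓy, heπ, sum_map]
      have e0 : ∑ v ∈ W0, (if emb v ∈ (Ix x).map emb then (1 : ℝ) else 0) =
          ∑ v ∈ W0, (if v ∈ Ix x then (1 : ℝ) else 0) :=
        sum_congr rfl fun v _ => if_congr (mem_map' emb) rfl rfl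
      refine e0.trans ?_
      simp only [F]
      rw [sum_boole, sum_ite_mem, sum_const, nsmul_eq_mul, mul_one]
      congr 1
      refine card_bij (fun v _ => v.1) ?_ ?_ ?_
      · intro v hv
        obtain ⟨hv1, hv2⟩ := mem_inter.1 hv
        obtain ⟨g1, g2, g3, -⟩ := (mem_filter.1 hv1).2
        refine mem_filter.2 ⟨g1, fun u => ?_⟩
        rw [← g3 u, A_apply]
        refine sum_congr rfl fun l _ => ?_
        rw [(mem_filter.1 hv2).2 (u, l), g2]
      · intro v hv v' hv' h
        obtain ⟨hv1, hv2⟩ := mem_inter.1 hv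
        obtain ⟨-, g2, -, -⟩ := (mem_filter.1 hv1).2
        obtain ⟨hv1', hv2'⟩ := mem_inter.1 hv'
        obtain ⟨-, g2', -, -⟩ := (mem_filter.1 hv1').2
        have h1 : v.1 = v'.1 := h
        have h2 : v.2.1 = v'.2.1 := funext fun p => by rw [g2, g2', h1]
        have h3 : v.2.2 = v'.2.2 := funext fun p => by
          rw [(mem_filter.1 hv2).2 p, (mem_filter.1 hv2').2 p, h1, h2]
        exact Prod.ext h1 (Prod.ext h2 h3)
      · intro i hi
        obtain ⟨g1, g2⟩ := mem_filter.1 hi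
        refine ⟨(i, fun p => σ (var i p), fun p => x (var i p) (σ (var i p))),
          mem_inter.2 ⟨mem_filter.2 ⟨mem_univ _, g1, fun p => rfl, fun u => g2 u,
            fun p p' h => ?_⟩, mem_filter.2 ⟨mem_univ _, fun p => rfl⟩⟩, rfl⟩
        have h' : var i p = var i p' := h
        show x (var i p) (σ (var i p)) = x (var i p') (σ (var i p'))
        rw [h']
    have hpe : pe a F = Gd.card := by
      simp only [F]
      rw [pe_sum]
      have h1 : ∀ i ∈ Gd, pe a (fun z => if sat i z then 1 else 0) = 1 := by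
        intro i _
        have h2 := pe_group T b a hJ (univ.image (idx i)) (card_image_le.trans (by
          rw [card_univ, Fintype.card_fin]; exact hMt))
        refine Eq.trans ?_ h2
        congr 1
        funext z
        refine if_congr ?_ rfl rfl
        simp only [sat, mem_image, mem_univ, true_and, forall_exists_index,
          forall_apply_eq_imp_iff]
      rw [sum_congr rfl h1, sum_const, nsmul_eq_mul, mul_one]
    have h1 := hℓ ℓ F 0 hval (fun z => sum_nonneg fun i _ => by split_ifs <;> norm_num)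
    rw [hpe, mul_zero, add_zero, hℓy] at h1
    obtain ⟨I, hIW, hIi, hIc⟩ := hW (W0.map emb) (π pt) ⟨pt, hpt, rfl⟩
    obtain ⟨I0, hI0, rfl⟩ := subset_map_iff.1 hIW
    have hcons : ∀ v ∈ I0, ∀ v' ∈ I0, ∀ p p', var v.1 p = var v'.1 p' → v.2.2 p = v'.2.2 p' := by
      intro v hv v' hv' p p' h
      obtain ⟨g1, g2, -, g4⟩ := (mem_filter.1 (hI0 hv)).2
      obtain ⟨g1', g2', -, -⟩ := (mem_filter.1 (hI0 hv')).2
      by_cases hvv : v = v'
      · subst hvv
        exact g4 p p' h
      · by_contra hne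
        refine hIi (x := emb v) (y := emb v') ?_ ?_ (fun h2 => hvv (emb.injective h2))
          (hG' v v' hvv ⟨g1, g1', p, p', h, by rw [g2, g2', h], hne⟩)
        · rw [mem_coe, mem_map' emb]
          exact hv
        · rw [mem_coe, mem_map' emb]
          exact hv'
    let z : Fin n → ZMod 2 := fun j =>
      if h : ∃ y : Vx M n q × (Fin M × Fin 3), y.1 ∈ I0 ∧ var y.1.1 y.2 = j then
        h.choose.1.2.2 h.choose.2 else 0
    have hz : ∀ v ∈ I0, ∀ p, z (var v.1 p) = v.2.2 p := by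
      intro v hv p
      have hex : ∃ y : Vx M n q × (Fin M × Fin 3), y.1 ∈ I0 ∧ var y.1.1 y.2 = var v.1 p :=
        ⟨(v, p), hv, rfl⟩
      simp only [z, dif_pos hex]
      exact hcons _ hex.choose_spec.1 v hv _ p hex.choose_spec.2
    have hI0c : I0.card ≤ (univ.filter fun i : Fin n =>
        ∀ u : Fin M, A T z (idx i u) = b (idx i u)).card := by
      refine card_le_card_of_injOn (fun v => v.1) ?_ ?_
      · intro v hv
        obtain ⟨-, -, g3, -⟩ := (mem_filter.1 (hI0 hv)).2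
        refine mem_filter.2 ⟨mem_univ _, fun u => ?_⟩
        rw [← g3 u, A_apply]
        exact sum_congr rfl fun l _ => hz v hv (u, l)
      · intro v hv v' hv' h
        obtain ⟨-, g2, -, -⟩ := (mem_filter.1 (hI0 hv)).2
        obtain ⟨-, g2', -, -⟩ := (mem_filter.1 (hI0 hv')).2
        have h1 : v.1 = v'.1 := h
        have h2 : v.2.1 = v'.2.1 := funext fun p => by rw [g2, g2', h1]
        have h3 : v.2.2 = v'.2.2 := funext fun p => by rw [← hz v hv, ← hz v' hv', h1]
        exact Prod.ext h1 (Prod.ext h2 h3)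
    have hI0n : C0 * I0.card ≤ n := by
      have h2 := (Nat.mul_le_mul_left M hI0c).trans (hb z)
      have h3 : M * I0.card = 2 * (C0 * I0.card) := mul_assoc 2 C0 _
      omega
    rw [card_map] at hIc
    have hμ1 : 1 < μ := by
      by_contra h2
      rw [not_lt] at h2
      have h3 : (C0 : ℝ) * I0.card ≤ n := by exact_mod_cast hI0n
      have h4 : (n : ℝ) ≤ 2 * Gd.card := by exact_mod_cast hGdc
      have h5 : C * I0.card ≤ |C| * I0.card :=
        mul_le_mul_of_nonneg_right (le_abs_self C) (Nat.cast_nonneg _)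
      have h6 : (0 : ℝ) ≤ |C| * I0.card := by positivity
      have h7 : (Gd.card : ℝ) ≤ 2 * (|C| * I0.card) := by
        calc (Gd.card : ℝ) ≤ (1 + μ) * ∑ v ∈ W0.map emb, π pt v := h1
          _ ≤ (1 + μ) * (|C| * I0.card) :=
              mul_le_mul_of_nonneg_left (hIc.trans h5) (by linarith)
          _ ≤ 2 * (|C| * I0.card) := mul_le_mul_of_nonneg_right (by linarith) h6
      have hn0 : (0 : ℝ) < n := by exact_mod_cast (by omega : 0 < n)
      have h8 : (0 : ℝ) < I0.card := by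
        rcases (Nat.cast_nonneg (α := ℝ) I0.card).lt_or_eq with h9 | h9
        · exact h9
        · rw [← h9] at h7
          linarith
      nlinarith
    have hd2 : 2 ≤ d := by
      by_contra h2
      have : d = 1 := by omega
      rw [this] at hnd
      omega
    refine size_bound hd2 (hμ1.trans_le hμ) ?_
    have h2 : N ≤ 2 * Kv * K0 * d := by
      have h3 : Kv * (n + 1) ≤ Kv * (2 * (K0 * d)) := Nat.mul_le_mul_left _ (by omega)
      nlinarith
    have h4 : (N : ℝ) ≤ 2 * Kv * K0 * d := by exact_mod_cast h2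
    have h5 : (0 : ℝ) < Kv := by exact_mod_cast hKv0
    have h6 : (0 : ℝ) < K0 := by exact_mod_cast hK0
    rw [show 6 * (1 / (12 * Kv * K0) * N : ℝ) = N / (2 * Kv * K0) by field_simp; ring,
      div_le_iff₀ (by positivity)]
    linarith

end Pool.Agent.H480Z.SDP
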