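import Pool.Agent.H480Z.SDP.Stab

set_option autoImplicit false
set_option linter.unusedSectionVars false

/-! Semidefinite relaxations of stable set polytopes: the additive gap. -/

namespace Pool.Agent.H480Z.SDP

open Finset
open Pool.Agent.H550R2.Neg (rowT)
open Pool.Agent.H30R2.NS (A A_apply)

theorem stab_abs : ∃ c : ℝ, 0 < c ∧ ∃ δ : ℝ, 0 < δ ∧ ∃ Δ N₀ : ℕ, ∀ N ≥ N₀,
    ∃ G : SimpleGraph (Fin N), (∀ v, (G.neighborSet v).ncard ≤ Δ) ∧
    ∀ (r m : ℕ) (Am : (Fin m → ℝ) →ᵃ[ℝ] Matrix (Fin r) (Fin r) ℝ)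
      (e : Finset (Fin N) → Fin m → ℝ),
      (∀ I : Finset (Fin N), G.IsIndepSet I → (Am (e I)).PosSemidef) → (r : ℝ) < 2 ^ (c * N) →
      ∃ (W : Finset (Fin N)) (p : Fin m → ℝ), (Am p).PosSemidef ∧ (∀ w ∈ W, ∃ v, G.Adj w v) ∧
        ∀ ℓ : (Fin m → ℝ) →ᵃ[ℝ] ℝ,
          (∀ I : Finset (Fin N), G.IsIndepSet I → ℓ (e I) = (W ∩ I).card) →
          ∀ I ⊆ W, G.IsIndepSet I → I.card + δ * N ≤ ℓ p := by
  classical
  obtain ⟨M, hM⟩ : ∃ M : ℕ, M = 16 := ⟨_, rfl⟩
  have hM0 : 0 < M := by omega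
  obtain ⟨K0, hK0, hsys⟩ := exists_system M (by omega)
  set q := 65536 * K0 ^ 4 with hq
  set Kv := q ^ (M * 3) * 2 ^ (M * 3) with hKv
  have hKv0 : 0 < Kv := by positivity
  set D := 72 * M ^ 2 with hD
  refine ⟨1 / (12 * Kv * K0), by positivity, 1 / (16 * Kv), by positivity, M * 3 * D * Kv,
    Kv * (2 * K0), fun N hN => ?_⟩
  set n := N / Kv with hn
  have hn1 : 2 * K0 ≤ n := by
    rw [hn, Nat.le_div_iff_mul_le hKv0]
    linarith
  have hnN : Kv * n ≤ N := Nat.mul_div_le N _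
  have hNn : N < Kv * (n + 1) := Nat.lt_mul_div_succ N hKv0
  obtain ⟨d, t, hd1, hdn, hnd, hMt, T, hlow, hgap, hcoll⟩ := hsys n (by omega)
  obtain ⟨b, hb⟩ := exists_rhs T
  obtain ⟨a, ha, ha0, hpsd, hJ⟩ := exists_moments T hlow hgap b
  let var : Fin n → Fin M × Fin 3 → Fin n := fun i p => T (idx i p.1, p.2)
  set Gd := univ.filter fun i : Fin n => ∀ p : Fin M × Fin 3,
    (univ.filter fun x => T x = T (idx i p.1, p.2)).card ≤ D with hGd
  have hGdc : n ≤ 2 * Gd.card :=
    good_groups (c := 36 * M ^ 2) T hcoll (by omega) (by positivity)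
  have hcardV : Fintype.card (Vx M n q) = n * Kv := by
    simp only [Vx, Fintype.card_prod, Fintype.card_fun, Fintype.card_fin, ZMod.card, hKv]
  obtain ⟨emb⟩ : Nonempty (Vx M n q ↪ Fin N) :=
    Function.Embedding.nonempty_of_card_le (by rw [hcardV, Fintype.card_fin]; linarith)
  let Cf : Vx M n q → Vx M n q → Prop := fun v v' => v.1 ∈ Gd ∧ v'.1 ∈ Gd ∧
    ∃ p p', var v.1 p = var v'.1 p' ∧ v.2.1 p = v'.2.1 p' ∧ v.2.2 p ≠ v'.2.2 p'
  have hCf : ∀ v v', Cf v v' → Cf v' v := by
    rintro v v' ⟨h1, h2, p, p', h3, h4, h5⟩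
    exact ⟨h2, h1, p', p, h3.symm, h4.symm, h5.symm⟩
  let G : SimpleGraph (Fin N) :=
    SimpleGraph.fromRel fun x y => ∃ v v', emb v = x ∧ emb v' = y ∧ Cf v v'
  have hG : ∀ x y, G.Adj x y → ∃ v v', emb v = x ∧ emb v' = y ∧ Cf v v' := by
    intro x y h
    rw [SimpleGraph.fromRel_adj] at h
    rcases h.2 with h1 | ⟨v, v', h1, h2, h3⟩
    · exact h1
    · exact ⟨v', v, h2, h1, hCf _ _ h3⟩
  have hG' : ∀ v v', v ≠ v' → Cf v v' → G.Adj (emb v) (emb v') := by
    intro v v' h1 h2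
    rw [SimpleGraph.fromRel_adj]
    exact ⟨fun h => h1 (emb.injective h), Or.inl ⟨v, v', rfl, rfl, h2⟩⟩
  refine ⟨G, fun x => ?_, fun r m Am e he hr => ?_⟩
  · by_cases hx : ∃ v, emb v = x ∧ v.1 ∈ Gd
    · obtain ⟨v, rfl, hv⟩ := hx
      let Nb : Finset (Fin n) := (univ : Finset (Fin M × Fin 3)).biUnion fun p =>
        (univ.filter fun x => T x = T (idx v.1 p.1, p.2)).image
          fun y => (finProdFinEquiv.symm y.1).2
      have hNb : Nb.card ≤ M * 3 * D := by
        refine card_biUnion_le.trans ?_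
        refine (sum_le_sum (g := fun _ => D) fun p _ =>
          card_image_le.trans ((mem_filter.1 hv).2 p)).trans (le_of_eq ?_)
        rw [sum_const, card_univ, Fintype.card_prod, Fintype.card_fin, Fintype.card_fin,
          smul_eq_mul]
      have h1 : G.neighborSet (emb v) ⊆
          ((Nb ×ˢ (univ : Finset ((Fin M × Fin 3 → Fin q) × (Fin M × Fin 3 → ZMod 2)))).map emb :
            Finset (Fin N)) := by
        intro y hy
        obtain ⟨v0, v', h2, h3, -, -, p, p', h4, -, -⟩ := hG _ _ hy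
        rw [emb.injective h2] at h4
        rw [mem_coe, mem_map]
        refine ⟨v', mem_product.2 ⟨?_, mem_univ _⟩, h3⟩
        rw [mem_biUnion]
        refine ⟨p, mem_univ _, mem_image.2 ⟨(idx v'.1 p'.1, p'.2),
          mem_filter.2 ⟨mem_univ _, h4.symm⟩, ?_⟩⟩
        simp [idx]
      refine (Set.ncard_le_ncard h1 (Finset.finite_toSet _)).trans ?_
      rw [Set.ncard_coe_finset, card_map, card_product, card_univ]
      simp only [Fintype.card_prod, Fintype.card_fun, Fintype.card_fin, ZMod.card]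
      exact Nat.mul_le_mul_right _ hNb
    · have h1 : G.neighborSet x = ∅ := by
        rw [Set.eq_empty_iff_forall_notMem]
        intro y hy
        obtain ⟨v, v', h2, -, h3, -⟩ := hG _ _ hy
        exact hx ⟨v, h2, h3⟩
      rw [h1, Set.ncard_empty]
      exact Nat.zero_le _
  · let Ix : (Fin n → Fin q → ZMod 2) → Finset (Vx M n q) := fun x =>
      univ.filter fun v => ∀ p, v.2.2 p = x (var v.1 p) (v.2.1 p)
    have hIx : ∀ x, G.IsIndepSet ((Ix x).map emb : Finset (Fin N)) := by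
      intro x y hy y' hy' _ hadj
      obtain ⟨v, v', h2, h3, -, -, p, p', h4, h5, h6⟩ := hG _ _ hadj
      rw [← h2, mem_coe, mem_map' emb] at hy
      rw [← h3, mem_coe, mem_map' emb] at hy'
      apply h6
      rw [(mem_filter.1 hy).2 p, (mem_filter.1 hy').2 p', h4, h5]
    have hqd : 65536 * n ^ 4 ≤ q * d ^ 4 := by
      rw [hq, mul_assoc, ← mul_pow]
      exact Nat.mul_le_mul_left _ (Nat.pow_le_pow_left hnd 4)
    obtain ⟨σ, pt, μ, hpt, hμ0, hμ, hℓ⟩ := shadow_point hd1 hdn hqd a ha ha0 hpsd Am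
      (fun x => e ((Ix x).map emb)) (fun x => he _ (hIx x))
    let W0 : Finset (Vx M n q) := univ.filter fun v => v.1 ∈ Gd ∧ (∀ p, v.2.1 p = σ (var v.1 p)) ∧
      (∀ u, ∑ l, v.2.2 (u, l) = b (idx v.1 u)) ∧
      ∀ p p', var v.1 p = var v.1 p' → v.2.2 p = v.2.2 p'
    let sat : Fin n → (Fin n → ZMod 2) → Prop := fun i z => ∀ u, A T z (idx i u) = b (idx i u)
    let F : (Fin n → ZMod 2) → ℝ := fun z => ∑ i ∈ Gd, if sat i z then 1 else 0
    have hd2 : 2 ≤ d := by
      by_contra h2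
      have : d = 1 := by omega
      rw [this] at hnd
      omega
    have hμ1 : μ ≤ 1 := by
      by_contra h1
      rw [not_le] at h1
      refine absurd (size_bound hd2 (h1.trans_le hμ) ?_) (not_le.2 hr)
      have h2 : N ≤ 2 * Kv * K0 * d := by
        have h3 : Kv * (n + 1) ≤ Kv * (2 * (K0 * d)) := Nat.mul_le_mul_left _ (by omega)
        nlinarith
      have h4 : (N : ℝ) ≤ 2 * Kv * K0 * d := by exact_mod_cast h2
      have h5 : (0 : ℝ) < Kv := by exact_mod_cast hKv0
      have h6 : (0 : ℝ) < K0 := by exact_mod_cast hK0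
      rw [show 6 * (1 / (12 * Kv * K0) * N : ℝ) = N / (2 * Kv * K0) by field_simp; ring,
        div_le_iff₀ (by positivity)]
      linarith
    refine ⟨W0.map emb, pt, hpt, fun w hw => ?_, fun ℓ hℓe I hIW hIi => ?_⟩
    · obtain ⟨v, hv, rfl⟩ := mem_map.1 hw
      have g1 := (mem_filter.1 hv).2.1
      have g2 : ∀ x : ZMod 2, x ≠ x + 1 := by decide
      refine ⟨emb (v.1, v.2.1, fun p => v.2.2 p + 1), hG' _ _ (fun h => ?_)
        ⟨g1, g1, (⟨0, hM0⟩, 0), (⟨0, hM0⟩, 0), rfl, rfl, g2 _⟩⟩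
      exact g2 _ (congrFun (congrArg (fun y : Vx M n q => y.2.2) h) (⟨0, hM0⟩, 0))
    have hval : ∀ x, ℓ (e ((Ix x).map emb)) = F (fun i => x i (σ i)) := by
      intro x
      rw [hℓe _ (hIx x), ← map_inter, card_map]
      simp only [F]
      rw [sum_boole]
      congr 1
      refine card_bij (fun v _ => v.1) ?_ ?_ ?_
      · intro v hv
        obtain ⟨hv1, hv2⟩ := mem_inter.1 hv
        obtain ⟨g1, g2, g3, -⟩ := (mem_filter.1 hv1).2
        refine mem_filter.2 ⟨g1, fun u => ?_⟩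
        rw [← g3 u, A_apply]
        refine sum_congr rfl fun l _ => ?_
        rw [(mem_filter.1 hv2).2 (u, l), g2]
      · intro v hv v' hv' h
        obtain ⟨hv1, hv2⟩ := mem_inter.1 hv
        obtain ⟨-, g2, -, -⟩ := (mem_filter.1 hv1).2
        obtain ⟨hv1', hv2'⟩ := mem_inter.1 hv'
        obtain ⟨-, g2', -, -⟩ := (mem_filter.1 hv1').2
        have h1 : v.1 = v'.1 := h
        have h2 : v.2.1 = v'.2.1 := funext fun p => by rw [g2, g2', h1]
        have h3 : v.2.2 = v'.2.2 := funext fun p => by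
          rw [(mem_filter.1 hv2).2 p, (mem_filter.1 hv2').2 p, h1, h2]
        exact Prod.ext h1 (Prod.ext h2 h3)
      · intro i hi
        obtain ⟨g1, g2⟩ := mem_filter.1 hi
        refine ⟨(i, fun p => σ (var i p), fun p => x (var i p) (σ (var i p))),
          mem_inter.2 ⟨mem_filter.2 ⟨mem_univ _, g1, fun p => rfl, fun u => g2 u,
            fun p p' h => ?_⟩, mem_filter.2 ⟨mem_univ _, fun p => rfl⟩⟩, rfl⟩
        have h' : var i p = var i p' := h
        show x (var i p) (σ (var i p)) = x (var i p') (σ (var i p'))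
        rw [h']
    have hpe : pe a F = Gd.card := by
      simp only [F]
      rw [pe_sum]
      have h1 : ∀ i ∈ Gd, pe a (fun z => if sat i z then 1 else 0) = 1 := by
        intro i _
        have h2 := pe_group T b a hJ (univ.image (idx i)) (card_image_le.trans (by
          rw [card_univ, Fintype.card_fin]; exact hMt))
        refine Eq.trans ?_ h2
        congr 1
        funext z
        refine if_congr ?_ rfl rfl
        simp only [sat, mem_image, mem_univ, true_and, forall_exists_index,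
          forall_apply_eq_imp_iff]
      rw [sum_congr rfl h1, sum_const, nsmul_eq_mul, mul_one]
    have h1 := hℓ ℓ F 0 hval (fun z => sum_nonneg fun i _ => by split_ifs <;> norm_num)
    rw [hpe, mul_zero, add_zero] at h1
    obtain ⟨I0, hI0, rfl⟩ := subset_map_iff.1 hIW
    have hcons : ∀ v ∈ I0, ∀ v' ∈ I0, ∀ p p', var v.1 p = var v'.1 p' → v.2.2 p = v'.2.2 p' := by
      intro v hv v' hv' p p' h
      obtain ⟨g1, g2, -, g4⟩ := (mem_filter.1 (hI0 hv)).2
      obtain ⟨g1', g2', -, -⟩ := (mem_filter.1 (hI0 hv')).2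
      by_cases hvv : v = v'
      · subst hvv
        exact g4 p p' h
      · by_contra hne
        refine hIi (x := emb v) (y := emb v') ?_ ?_ (fun h2 => hvv (emb.injective h2))
          (hG' v v' hvv ⟨g1, g1', p, p', h, by rw [g2, g2', h], hne⟩)
        · rw [mem_coe, mem_map' emb]
          exact hv
        · rw [mem_coe, mem_map' emb]
          exact hv'
    let z : Fin n → ZMod 2 := fun j =>
      if h : ∃ y : Vx M n q × (Fin M × Fin 3), y.1 ∈ I0 ∧ var y.1.1 y.2 = j then
        h.choose.1.2.2 h.choose.2 else 0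
    have hz : ∀ v ∈ I0, ∀ p, z (var v.1 p) = v.2.2 p := by
      intro v hv p
      have hex : ∃ y : Vx M n q × (Fin M × Fin 3), y.1 ∈ I0 ∧ var y.1.1 y.2 = var v.1 p :=
        ⟨(v, p), hv, rfl⟩
      simp only [z, dif_pos hex]
      exact hcons _ hex.choose_spec.1 v hv _ p hex.choose_spec.2
    have hI0c : I0.card ≤ (univ.filter fun i : Fin n =>
        ∀ u : Fin M, A T z (idx i u) = b (idx i u)).card := by
      refine card_le_card_of_injOn (fun v => v.1) ?_ ?_
      · intro v hv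
        obtain ⟨-, -, g3, -⟩ := (mem_filter.1 (hI0 hv)).2
        refine mem_filter.2 ⟨mem_univ _, fun u => ?_⟩
        rw [← g3 u, A_apply]
        exact sum_congr rfl fun l _ => hz v hv (u, l)
      · intro v hv v' hv' h
        obtain ⟨-, g2, -, -⟩ := (mem_filter.1 (hI0 hv)).2
        obtain ⟨-, g2', -, -⟩ := (mem_filter.1 (hI0 hv')).2
        have h1 : v.1 = v'.1 := h
        have h2 : v.2.1 = v'.2.1 := funext fun p => by rw [g2, g2', h1]
        have h3 : v.2.2 = v'.2.2 := funext fun p => by rw [← hz v hv, ← hz v' hv', h1]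
        exact Prod.ext h1 (Prod.ext h2 h3)
    have hI0n : 8 * I0.card ≤ n := by
      have h2 := (Nat.mul_le_mul_left M hI0c).trans (hb z)
      have h3 : M * I0.card = 16 * I0.card := congrArg (fun x => x * I0.card) hM
      omega
    rw [card_map]
    have h3 : (8 : ℝ) * I0.card ≤ n := by exact_mod_cast hI0n
    have h4 : (n : ℝ) ≤ 2 * Gd.card := by exact_mod_cast hGdc
    have h5 : (0 : ℝ) < Kv := by exact_mod_cast hKv0
    have h6 : (N : ℝ) ≤ 2 * Kv * n := by
      have h7 : N ≤ 2 * Kv * n := by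
        have h8 : Kv * (n + 1) ≤ Kv * (2 * n) := Nat.mul_le_mul_left _ (by omega)
        nlinarith
      exact_mod_cast h7
    have h7 : (1 / (16 * Kv) * N : ℝ) ≤ n / 8 := by
      rw [show (1 / (16 * Kv) * N : ℝ) = N / (16 * Kv) by ring, div_le_iff₀ (by positivity)]
      linarith
    have h8 : (0 : ℝ) ≤ Gd.card := Nat.cast_nonneg _
    have h9 : 0 ≤ ℓ pt := by
      by_contra h10
      rw [not_le] at h10
      have h11 := mul_neg_of_pos_of_neg (by linarith : 0 < 1 + μ) h10
      have h12 : (0 : ℝ) < n := by exact_mod_cast (by omega : 0 < n)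
      linarith
    have h10 : (1 + μ) * ℓ pt ≤ 2 * ℓ pt := mul_le_mul_of_nonneg_right (by linarith) h9
    linarith

end Pool.Agent.H480Z.SDP
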