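import Pool.Agent.H480Z.SDP.Defs

set_option autoImplicit false

/-! Incidence vectors of tours. -/

namespace Pool.Agent.H480Z.SDP

open Classical in
/-- The incidence vector of the edge set `{ {v, f v} : v }`.  If `f` is a cyclic permutation of
the `N ≥ 3` cities, this is the incidence vector of a Hamiltonian cycle of the complete graph. -/
noncomputable def tourVec {N : ℕ} (f : Equiv.Perm (Fin N)) : Sym2 (Fin N) → ℝ :=
  fun e => if ∃ v, e = s(v, f v) then 1 else 0

end Pool.Agent.H480Z.SDP
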