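import Mathlib

set_option autoImplicit false
set_option linter.unusedSectionVars false

/-! The reduction from independent sets to tours. -/

namespace Pool.Agent.H480Z.SDP.Tsp

open Finset

/-- cyclic maps -/
def Cyc {V : Type} (f : V → V) : Prop := ∀ x y, ∃ k : ℕ, f^[k] x = y

theorem Cyc.closed {V : Type} {f : V → V} (h : Cyc f) {X : Set V} {x : V} (hx : x ∈ X)
    (hX : ∀ y ∈ X, f y ∈ X) (y : V) : y ∈ X := by
  obtain ⟨k, rfl⟩ := h x y
  induction k with
  | zero => exact hx
  | succ k ih => rw [Function.iterate_succ_apply']; exact hX _ ih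

theorem cyc_iff {V : Type} [Fintype V] [DecidableEq V] (f : Equiv.Perm V) :
    f.IsCycleOn Set.univ ↔ Cyc f := by
  constructor
  · intro h x y
    obtain ⟨k, -, hk⟩ := (h.2 (Set.mem_univ x) (Set.mem_univ y)).exists_pow_eq'
    exact ⟨k, by rw [← hk, Equiv.Perm.iterate_eq_pow]⟩
  · intro h
    refine ⟨f.bijective.bijOn_univ, fun x _ y _ => ?_⟩
    obtain ⟨k, hk⟩ := h x y
    exact ⟨k, by rw [← hk, Equiv.Perm.iterate_eq_pow, zpow_natCast]⟩

theorem Cyc.sq_ne {V : Type} [Fintype V] [DecidableEq V] {f : V → V} (h : Cyc f)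
    (hV : 3 ≤ Fintype.card V) (x : V) : f (f x) ≠ x := by
  intro h1
  have h2 : ∀ y, y ∈ ({x, f x} : Set V) := h.closed (x := x) (by simp) (by
    rintro y (rfl | rfl)
    · simp
    · simp [h1])
  have h3 : (univ : Finset V) ⊆ {x, f x} := fun y _ => by simpa using h2 y
  have h4 := (card_le_card h3).trans card_le_two
  rw [card_univ] at h4
  omega

theorem cyc_rot (k : ℕ) : Cyc (finRotate k) := by
  rw [← cyc_iff]
  rcases k with _ | _ | k
  · exact Equiv.Perm.isCycleOn_of_subsingleton _ _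
  · exact Equiv.Perm.isCycleOn_of_subsingleton (α := Fin 1) _ _
  · refine ⟨(finRotate _).bijective.bijOn_univ, fun x _ y _ => ?_⟩
    refine (isCycle_finRotate (n := k)).sameCycle ?_ ?_
    · rw [← Equiv.Perm.mem_support, support_finRotate]; exact mem_univ _
    · rw [← Equiv.Perm.mem_support, support_finRotate]; exact mem_univ _

variable {n k : ℕ} (H : SimpleGraph (Fin n)) [DecidableRel H.Adj] (κ : Fin n ↪ Fin k)

/-- the cities -/
abbrev City : Type := Fin k ⊕ H.Dart × Bool × Option Bool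

theorem exists_aft (b : Fin k) (j : ℕ) : ∃ x : City (k := k) H,
    (x = .inl (finRotate k b) ∧ ∀ d : H.Dart, κ d.fst = b → (d.snd : ℕ) < j) ∨
    ∃ d0 : H.Dart, x = .inr (d0, false, some false) ∧ κ d0.fst = b ∧ j ≤ d0.snd ∧
      ∀ d : H.Dart, κ d.fst = b → j ≤ d.snd → (d0.snd : ℕ) ≤ d.snd := by
  classical
  by_cases h : ∃ d : H.Dart, κ d.fst = b ∧ j ≤ d.snd
  · obtain ⟨d, hd⟩ := h
    obtain ⟨d0, h0, h1⟩ := exists_min_image (univ.filter fun d : H.Dart => κ d.fst = b ∧ j ≤ d.snd)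
      (fun d => (d.snd : ℕ)) ⟨d, mem_filter.2 ⟨mem_univ _, hd⟩⟩
    exact ⟨_, Or.inr ⟨d0, rfl, (mem_filter.1 h0).2.1, (mem_filter.1 h0).2.2,
      fun d' h2 h3 => h1 d' (mem_filter.2 ⟨mem_univ _, h2, h3⟩)⟩⟩
  · refine ⟨_, Or.inl ⟨rfl, fun d hd => ?_⟩⟩
    by_contra h1
    exact h ⟨d, hd, not_lt.1 h1⟩

/-- the next city in a chain -/
noncomputable def aft (b : Fin k) (j : ℕ) : City (k := k) H := (exists_aft H κ b j).choose

theorem aft_spec (b : Fin k) (j : ℕ) :
    (aft H κ b j = .inl (finRotate k b) ∧ ∀ d : H.Dart, κ d.fst = b → (d.snd : ℕ) < j) ∨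
    ∃ d0 : H.Dart, aft H κ b j = .inr (d0, false, some false) ∧ κ d0.fst = b ∧ j ≤ d0.snd ∧
      ∀ d : H.Dart, κ d.fst = b → j ≤ d.snd → (d0.snd : ℕ) ≤ d.snd :=
  (exists_aft H κ b j).choose_spec

theorem aft_inr {b : Fin k} {j : ℕ} {d : H.Dart} {t : Bool} {o : Option Bool}
    (h : aft H κ b j = .inr (d, t, o)) : t = false ∧ o = some false ∧ κ d.fst = b ∧ j ≤ d.snd := by
  rcases aft_spec H κ b j with ⟨h1, -⟩ | ⟨d0, h1, h2, h3, -⟩
  · rw [h1] at h
    cases h
  · rw [h1] at h
    cases h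
    exact ⟨rfl, rfl, h2, h3⟩

/-- the two possible successors of a city -/
noncomputable def opt (s : Bool) : City (k := k) H → City (k := k) H
  | .inl b => if s then .inl (finRotate k b) else aft H κ b 0
  | .inr (d, t, some false) => .inr (d, t, none)
  | .inr (d, t, none) => .inr (d, t, some true)
  | .inr (d, false, some true) =>
      if s then .inr (d.symm, false, some false) else .inr (d, true, some false)
  | .inr (d, true, some true) =>
      if s then .inr (d.symm, true, some false) else aft H κ (κ d.fst) (d.snd + 1)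

theorem opt_mid {s : Bool} {x : City (k := k) H} {d : H.Dart} {t : Bool}
    (h : opt H κ s x = .inr (d, t, none)) : x = .inr (d, t, some false) := by
  rcases x with b | ⟨d', _ | _, _ | _ | _⟩ <;> cases s <;>
    simp only [opt, if_true, Bool.false_eq_true, if_false] at h <;>
    first
      | (cases h; done)
      | (cases h; rfl)
      | (have := (aft_inr H κ h).2.1; cases this)

theorem opt_in1 {s : Bool} {x : City (k := k) H} {d : H.Dart}
    (h : opt H κ s x = .inr (d, true, some false)) :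
    x = .inr (d, false, some true) ∨ x = .inr (d.symm, true, some true) := by
  rcases x with b | ⟨d', _ | _, _ | _ | _⟩ <;> cases s <;>
    simp only [opt, if_true, Bool.false_eq_true, if_false] at h <;>
    first
      | (cases h; done)
      | (cases h; exact Or.inl rfl)
      | (cases h; exact Or.inr rfl)
      | (have := (aft_inr H κ h).1; cases this)

theorem opt_in0 {s : Bool} {x : City (k := k) H} {d : H.Dart}
    (h : opt H κ s x = .inr (d, false, some false)) :
    x = .inr (d.symm, false, some true) ∨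
    (x = .inl (κ d.fst) ∧ aft H κ (κ d.fst) 0 = .inr (d, false, some false)) ∨
    ∃ d' : H.Dart, d'.fst = d.fst ∧ (d'.snd : ℕ) < d.snd ∧ x = .inr (d', true, some true) := by
  rcases x with b | ⟨d', _ | _, _ | _ | _⟩ <;> cases s <;>
    simp only [opt, if_true, Bool.false_eq_true, if_false] at h <;>
    first
      | (cases h; done)
      | (cases h; exact Or.inl rfl)
      | (have h1 := (aft_inr H κ h).2.2
         exact Or.inr (Or.inr ⟨d', (κ.injective h1.1).symm, h1.2, rfl⟩))
      | (have h1 := (aft_inr H κ h).2.2.1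
         subst h1
         exact Or.inr (Or.inl ⟨rfl, h⟩))

/-- the choice of the successor -/
def sel (I : Finset (Fin n)) : City (k := k) H → Bool
  | .inl b => decide (b ∈ I.map κ)
  | .inr (d, false, _) => decide (d.snd ∈ I)
  | .inr (d, true, _) => decide (d.fst ∈ I)

/-- the tour of an independent set -/
noncomputable def nxt (I : Finset (Fin n)) (x : City (k := k) H) : City (k := k) H :=
  opt H κ (sel H κ I x) x

section reach

variable {I : Finset (Fin n)} (hI : H.IsIndepSet I) {R : Set (City (k := k) H)}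
  (hR : ∀ x ∈ R, nxt H κ I x ∈ R)
include hR

theorem r_mid {d : H.Dart} {t : Bool} (h : .inr (d, t, some false) ∈ R) :
    .inr (d, t, none) ∈ R := by
  have := hR _ h
  cases t <;> exact this

theorem r_out {d : H.Dart} {t : Bool} (h : .inr (d, t, some false) ∈ R) :
    .inr (d, t, some true) ∈ R := by
  have := hR _ (r_mid H κ hR h)
  cases t <;> exact this

theorem r_gadget {d : H.Dart} (hd : d.fst ∉ I) (h : .inr (d, false, some false) ∈ R) :
    .inr (d, true, some false) ∈ R ∧ (d.snd ∈ I → ∀ t, .inr (d.symm, t, some false) ∈ R) := by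
  have h1 := hR _ (r_out H κ hR h)
  by_cases hs : d.snd ∈ I
  · have h2 : .inr (d.symm, false, some false) ∈ R := by simpa [nxt, sel, opt, hs] using h1
    have h3 : .inr (d.symm, true, some false) ∈ R := by
      simpa [nxt, sel, opt, hd] using hR _ (r_out H κ hR h2)
    have h4 : .inr (d, true, some false) ∈ R := by
      simpa [nxt, sel, opt, hs] using hR _ (r_out H κ hR h3)
    exact ⟨h4, fun _ t => by cases t; exacts [h2, h3]⟩
  · exact ⟨by simpa [nxt, sel, opt, hs] using h1, fun h => absurd h hs⟩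

theorem r_chain {b : Fin k} (hb : b ∉ I.map κ) (i : ℕ) : ∀ j, n ≤ j + i → aft H κ b j ∈ R →
    .inl (finRotate k b) ∈ R ∧
      ∀ d : H.Dart, κ d.fst = b → j ≤ d.snd → .inr (d, false, some false) ∈ R := by
  induction i with
  | zero =>
    intro j hj h
    rcases aft_spec H κ b j with ⟨h1, h2⟩ | ⟨d0, -, -, h3, -⟩
    · exact ⟨h1 ▸ h, fun d h3 h4 => absurd (h2 d h3) (not_lt.2 h4)⟩
    · have := d0.snd.2
      omega
  | succ i ih =>
    intro j hj h
    rcases aft_spec H κ b j with ⟨h1, h2⟩ | ⟨d0, h1, h2, h3, h4⟩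
    · exact ⟨h1 ▸ h, fun d h3 h4 => absurd (h2 d h3) (not_lt.2 h4)⟩
    · rw [h1] at h
      have hd : d0.fst ∉ I := fun h5 => hb (h2 ▸ mem_map_of_mem κ h5)
      have h5 : aft H κ b (d0.snd + 1) ∈ R := by
        have := hR _ (r_out H κ hR (r_gadget H κ hR hd h).1)
        simpa [nxt, sel, opt, hd, h2] using this
      obtain ⟨h6, h7⟩ := ih (d0.snd + 1) (by omega) h5
      refine ⟨h6, fun d h8 h9 => ?_⟩
      rcases (h4 d h8 h9).eq_or_lt with h10 | h10
      · have : d = d0 := SimpleGraph.Dart.ext _ _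
          (Prod.ext (κ.injective (h8.trans h2.symm)) (Fin.ext h10.symm))
        rwa [this]
      · exact h7 d h8 h10

theorem r_base {b : Fin k} (h : nxt H κ I (.inl b) ∈ R) : .inl (finRotate k b) ∈ R := by
  by_cases hb : b ∈ I.map κ
  · have e : nxt H κ I (.inl b) = .inl (finRotate k b) := by
      simp only [nxt, sel, opt, hb, decide_true, if_true]
    rwa [e] at h
  · have e : nxt H κ I (.inl b) = aft H κ b 0 := by
      simp only [nxt, sel, opt, hb, decide_false, Bool.false_eq_true, if_false]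
    rw [e] at h
    exact (r_chain H κ hR hb n 0 (by omega) h).1

include hI in
theorem r_all {b : Fin k} (h : .inl b ∈ R) (y : City (k := k) H) : y ∈ R := by
  have h1 : ∀ b', .inl b' ∈ R :=
    (cyc_rot k).closed (X := {b' | (Sum.inl b' : City (k := k) H) ∈ R}) h
      fun b' hb' => r_base H κ hR (hR (.inl b') hb')
  have h2 : ∀ d : H.Dart, d.fst ∉ I → .inr (d, false, some false) ∈ R := by
    intro d hd
    have hb : κ d.fst ∉ I.map κ := by rwa [mem_map' κ]
    have h3 := hR _ (h1 (κ d.fst))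
    have e : nxt H κ I (.inl (κ d.fst)) = aft H κ (κ d.fst) 0 := by
      simp only [nxt, sel, opt, hb, decide_false, Bool.false_eq_true, if_false]
    rw [e] at h3
    exact (r_chain H κ hR hb n 0 (by omega) h3).2 d rfl (Nat.zero_le _)
  have h3 : ∀ (d : H.Dart) t, .inr (d, t, some false) ∈ R := by
    intro d t
    by_cases hd : d.fst ∈ I
    · have h4 : d.symm.fst ∉ I := fun h5 => hI hd h5 d.adj.ne d.adj
      exact (r_gadget H κ hR h4 (h2 _ h4)).2 hd t
    · cases t
      · exact h2 d hd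
      · exact (r_gadget H κ hR hd (h2 d hd)).1
  rcases y with b' | ⟨d, t, _ | _ | _⟩
  · exact h1 b'
  · exact r_mid H κ hR (h3 d t)
  · exact h3 d t
  · exact r_out H κ hR (h3 d t)

end reach

theorem exists_tour (hk : 0 < k) {I : Finset (Fin n)} (hI : H.IsIndepSet I) :
    ∃ f : Equiv.Perm (City (k := k) H), (∀ x, f x = nxt H κ I x) ∧ Cyc f := by
  classical
  let x0 : City (k := k) H := .inl ⟨0, hk⟩
  have h1 : ∀ y, ∃ i : ℕ, (nxt H κ I)^[i + 1] x0 = y := by
    have hR : ∀ x ∈ {y | ∃ i : ℕ, (nxt H κ I)^[i + 1] x0 = y},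
        nxt H κ I x ∈ {y | ∃ i : ℕ, (nxt H κ I)^[i + 1] x0 = y} := by
      rintro x ⟨i, rfl⟩
      exact ⟨i + 1, Function.iterate_succ_apply' _ _ _⟩
    exact r_all H κ hI hR (r_base H κ hR ⟨0, rfl⟩)
  have h2 : Function.Surjective (nxt H κ I) := fun y => by
    obtain ⟨i, rfl⟩ := h1 y
    exact ⟨_, (Function.iterate_succ_apply' _ _ _).symm⟩
  refine ⟨Equiv.ofBijective _ (Finite.surjective_iff_bijective.1 h2), fun x => rfl, ?_⟩
  rw [← cyc_iff]
  refine ⟨(Equiv.bijective _).bijOn_univ, fun x _ y _ => ?_⟩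
  have h3 : ∀ y, Equiv.Perm.SameCycle
      (Equiv.ofBijective _ (Finite.surjective_iff_bijective.1 h2)) x0 y := by
    intro y
    obtain ⟨i, hi⟩ := h1 y
    exact ⟨(i + 1 : ℕ), by rw [← hi, zpow_natCast, ← Equiv.Perm.iterate_eq_pow]; rfl⟩
  exact (h3 x).symm.trans (h3 y)

open Classical in
/-- the cost function of a vertex set -/
noncomputable def cost (W : Finset (Fin n)) (e : Sym2 (City (k := k) H)) : ℝ :=
  if ∃ u ∈ W, e = s(.inl (κ u), aft H κ (κ u) 0) then 5 / 4
  else if ∃ s x, e = s(x, opt H κ s x) then 1 else 2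

theorem cost_mem (W : Finset (Fin n)) (e : Sym2 (City (k := k) H)) :
    1 ≤ cost H κ W e ∧ cost H κ W e ≤ 2 := by
  unfold cost
  split_ifs <;> norm_num

theorem aft_zero {u : Fin n} (hu : ∃ v, H.Adj u v) :
    ∃ d : H.Dart, aft H κ (κ u) 0 = .inr (d, false, some false) := by
  obtain ⟨v, hv⟩ := hu
  rcases aft_spec H κ (κ u) 0 with ⟨-, h2⟩ | ⟨d0, h1, -⟩
  · exact absurd (h2 ⟨(u, v), hv⟩ rfl) (Nat.not_lt_zero _)
  · exact ⟨d0, h1⟩

theorem cost_nxt {W I : Finset (Fin n)} (hW : ∀ w ∈ W, ∃ v, H.Adj w v) :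
    ∑ x, cost H κ W s(x, nxt H κ I x) =
      Fintype.card (City (k := k) H) + ((W.card : ℝ) - (W ∩ I).card) / 4 := by
  classical
  let ι : Fin n ↪ City (k := k) H := κ.trans Function.Embedding.inl
  have h1 : ∀ x, cost H κ W s(x, nxt H κ I x) =
      1 + (1 / 4) * if x ∈ (W \ I).map ι then 1 else 0 := by
    intro x
    unfold cost
    by_cases hx : x ∈ (W \ I).map ι
    · obtain ⟨u, hu, rfl⟩ := mem_map.1 hx
      obtain ⟨hu1, hu2⟩ := mem_sdiff.1 hu
      have hb : κ u ∉ I.map κ := by rwa [mem_map' κ]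
      have e : nxt H κ I (ι u) = aft H κ (κ u) 0 := by
        show nxt H κ I (.inl (κ u)) = _
        simp only [nxt, sel, opt, hb, decide_false, Bool.false_eq_true, if_false]
      rw [if_pos ⟨u, hu1, by rw [e]; rfl⟩, if_pos hx]
      norm_num
    · rw [if_neg, if_pos ⟨_, x, rfl⟩, if_neg hx]
      · norm_num
      · rintro ⟨u, hu, h⟩
        obtain ⟨d, hd⟩ := aft_zero H κ (hW u hu)
        rw [hd] at h
        rcases Sym2.eq_iff.1 h with ⟨h2, h3⟩ | ⟨h2, h3⟩
        · refine hx (mem_map.2 ⟨u, mem_sdiff.2 ⟨hu, fun h4 => ?_⟩, h2.symm⟩)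
          have hb : κ u ∈ I.map κ := mem_map_of_mem κ h4
          rw [h2] at h3
          simp only [nxt, sel, opt, hb, decide_true, if_true] at h3
          cases h3
        · rw [h2] at h3
          cases h3
  simp only [h1]
  rw [sum_add_distrib, sum_const, card_univ, nsmul_eq_mul, mul_one, ← mul_sum, sum_boole,
    filter_mem_eq_inter, univ_inter, card_map]
  have h2 : (W \ I).card + (W ∩ I).card = W.card := card_sdiff_add_card_inter W I
  have h3 : ((W \ I).card : ℝ) + (W ∩ I).card = W.card := by exact_mod_cast h2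
  linarith

section sound

variable {V : Type} (f : Equiv.Perm V)

/-- adjacent on the tour -/
def Tn (x y : V) : Prop := f x = y ∨ f y = x

theorem Tn.symm {f : Equiv.Perm V} {x y : V} (h : Tn f x y) : Tn f y x := Or.symm h

theorem tn_three {x y₁ y₂ y₃ : V} (h₁ : Tn f x y₁) (h₂ : Tn f x y₂) (h₃ : Tn f x y₃) :
    y₁ = y₂ ∨ y₁ = y₃ ∨ y₂ = y₃ := by
  rcases h₁ with h₁ | h₁ <;> rcases h₂ with h₂ | h₂ <;> rcases h₃ with h₃ | h₃ <;>
    first
      | exact Or.inl (h₁.symm.trans h₂)
      | exact Or.inl (f.injective (h₁.trans h₂.symm))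
      | exact Or.inr (Or.inl (h₁.symm.trans h₃))
      | exact Or.inr (Or.inl (f.injective (h₁.trans h₃.symm)))
      | exact Or.inr (Or.inr (h₂.symm.trans h₃))
      | exact Or.inr (Or.inr (f.injective (h₂.trans h₃.symm)))

theorem tn_other (hf : ∀ x, f (f x) ≠ x) (x m : V) : ∃ y, y ≠ m ∧ Tn f x y := by
  by_cases h : f x = m
  · refine ⟨f.symm x, fun h1 => hf x ?_, Or.inr (f.apply_symm_apply x)⟩
    rw [h, ← h1, f.apply_symm_apply]
  · exact ⟨f x, h, Or.inl rfl⟩

end sound

section sound2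

variable (f : Equiv.Perm (City (k := k) H)) (hf : ∀ x, f (f x) ≠ x)

/-- all edges of the tour at the cities of a dart are edges of the gadget -/
def Clean (d : H.Dart) : Prop := ∀ t o y, Tn f (.inr (d, t, o)) y →
  ∃ s, opt H κ s (.inr (d, t, o)) = y ∨ opt H κ s y = .inr (d, t, o)

include hf

theorem mid_nb {d : H.Dart} (hd : Clean H κ f d) (t : Bool) (c : Bool) :
    Tn f (.inr (d, t, none)) (.inr (d, t, some c)) := by
  obtain ⟨y, h1, h2⟩ := tn_other f hf (.inr (d, t, none)) (.inr (d, t, some (!c)))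
  obtain ⟨s, h3 | h3⟩ := hd _ _ _ h2
  · have h4 : y = .inr (d, t, some true) := by
      rw [← h3]
      cases t <;> rfl
    rw [h4] at h1 h2
    cases c
    · exact absurd rfl h1
    · exact h2
  · have h4 := opt_mid H κ h3
    rw [h4] at h1 h2
    cases c
    · exact h2
    · exact absurd rfl h1

theorem in_nb {d : H.Dart} (hd : Clean H κ f d) (t : Bool) :
    ∃ y s, Tn f (.inr (d, t, some false)) y ∧ opt H κ s y = .inr (d, t, some false) := by
  obtain ⟨y, h1, h2⟩ := tn_other f hf (.inr (d, t, some false)) (.inr (d, t, none))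
  obtain ⟨s, h3 | h3⟩ := hd _ _ _ h2
  · refine absurd ?_ h1
    rw [← h3]
    cases t <;> rfl
  · exact ⟨y, s, h2, h3⟩

theorem inactive {u : Fin n} (hc : ∀ d : H.Dart, d.fst = u → Clean H κ f d ∧ Clean H κ f d.symm)
    (he : ¬ Tn f (.inl (κ u)) (aft H κ (κ u) 0)) (j : ℕ) : ∀ d : H.Dart, d.fst = u →
      (d.snd : ℕ) < j → Tn f (.inr (d.symm, false, some true)) (.inr (d, false, some false)) := by
  induction j with
  | zero => intro d _ h; exact absurd h (Nat.not_lt_zero _)
  | succ j ih =>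
    intro d hd hj
    obtain ⟨y, s, h1, h2⟩ := in_nb H κ f hf (hc d hd).1 false
    rcases opt_in0 H κ h2 with h3 | ⟨h3, h4⟩ | ⟨d', h3, h4, h5⟩
    · rw [h3] at h1
      exact h1.symm
    · rw [h3, ← h4, hd] at h1
      exact absurd h1.symm he
    · exfalso
      have hd' := h3.trans hd
      have h6 := ih d' hd' (by omega)
      rw [h5] at h1
      obtain ⟨y', s', h7, h8⟩ := in_nb H κ f hf (hc d' hd').2 true
      rcases opt_in1 H κ h8 with h9 | h9
      · rw [h9] at h7
        have := tn_three f (mid_nb H κ f hf (hc d' hd').2 false true).symm h6 h7.symm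
        simp at this
      · rw [h9, SimpleGraph.Dart.symm_symm] at h7
        have := tn_three f (mid_nb H κ f hf (hc d' hd').1 true true).symm h1.symm h7.symm
        simp at this

theorem no_edge (hk : 0 < k) (hcyc : Cyc f) {d : H.Dart} (h1 : Clean H κ f d)
    (h2 : Clean H κ f d.symm)
    (h3 : Tn f (.inr (d.symm, false, some true)) (.inr (d, false, some false)))
    (h4 : Tn f (.inr (d, false, some true)) (.inr (d.symm, false, some false))) : False := by
  let X : Set (City (k := k) H) := {x | ∃ o, x = .inr (d, false, o) ∨ x = .inr (d.symm, false, o)}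
  have key : ∀ x y₁ y₂, Tn f x y₁ → Tn f x y₂ → y₁ ≠ y₂ → y₁ ∈ X → y₂ ∈ X → f x ∈ X := by
    intro x y₁ y₂ a1 a2 a3 a4 a5
    rcases tn_three f a1 a2 (Or.inl rfl) with h | h | h
    · exact absurd h a3
    · exact h ▸ a4
    · exact h ▸ a5
  have m1 := mid_nb H κ f hf h1 false
  have m2 := mid_nb H κ f hf h2 false
  have hX : ∀ x ∈ X, f x ∈ X := by
    rintro x ⟨_ | _ | _, rfl | rfl⟩
    · exact key _ _ _ (m1 false) (m1 true) (by simp) ⟨_, Or.inl rfl⟩ ⟨_, Or.inl rfl⟩
    · exact key _ _ _ (m2 false) (m2 true) (by simp) ⟨_, Or.inr rfl⟩ ⟨_, Or.inr rfl⟩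
    · exact key _ _ _ (m1 false).symm h3.symm (by simp) ⟨_, Or.inl rfl⟩ ⟨_, Or.inr rfl⟩
    · exact key _ _ _ (m2 false).symm h4.symm (by simp) ⟨_, Or.inr rfl⟩ ⟨_, Or.inl rfl⟩
    · exact key _ _ _ (m1 true).symm h4 (by simp) ⟨_, Or.inl rfl⟩ ⟨_, Or.inr rfl⟩
    · exact key _ _ _ (m2 true).symm h3 (by simp) ⟨_, Or.inr rfl⟩ ⟨_, Or.inl rfl⟩
  obtain ⟨o, h | h⟩ := hcyc.closed (X := X) (x := .inr (d, false, none)) ⟨_, Or.inl rfl⟩ hX
    (.inl ⟨0, hk⟩)
  · cases h
  · cases h

end sound2

/-- the vertices which a city belongs to -/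
def vs : City (k := k) H → Finset (Fin n)
  | .inl _ => ∅
  | .inr (d, _, _) => {d.fst, d.snd}

theorem card_vs (x : City (k := k) H) : (vs H x).card ≤ 2 := by
  rcases x with b | ⟨d, t, o⟩
  · exact Nat.zero_le _
  · exact card_le_two

theorem sound (hk : 3 ≤ k) {W : Finset (Fin n)} (hW : ∀ w ∈ W, ∃ v, H.Adj w v)
    (f : Equiv.Perm (City (k := k) H)) (hcyc : Cyc f) : ∃ I ⊆ W, H.IsIndepSet I ∧
      Fintype.card (City (k := k) H) + ((W.card : ℝ) - I.card) / 4 ≤
        ∑ x, cost H κ W s(x, f x) := by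
  classical
  have hf : ∀ x, f (f x) ≠ x := hcyc.sq_ne (by
    rw [Fintype.card_sum, Fintype.card_fin]; omega)
  let En : City (k := k) H → Finset (Fin n) := fun x =>
    W.filter fun u => s(x, f x) = s(.inl (κ u), aft H κ (κ u) 0)
  let Sp : City (k := k) H → Finset (Fin n) := fun x =>
    if ∃ s y, s(x, f x) = s(y, opt H κ s y) then En x else vs H x ∪ vs H (f x)
  have hSp : ∀ x, 1 + ((Sp x).card : ℝ) / 4 ≤ cost H κ W s(x, f x) := by
    intro x
    simp only [Sp]
    unfold cost
    by_cases h1 : ∃ u ∈ W, s(x, f x) = s(.inl (κ u), aft H κ (κ u) 0)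
    · obtain ⟨u, hu, h2⟩ := h1
      rw [if_pos ⟨false, .inl (κ u), h2⟩, if_pos ⟨u, hu, h2⟩]
      have h3 : (En x).card ≤ 1 := by
        refine card_le_one.2 fun a ha b hb => ?_
        have h4 := (mem_filter.1 ha).2.symm.trans (mem_filter.1 hb).2
        obtain ⟨d, hd⟩ := aft_zero H κ (hW b (mem_filter.1 hb).1)
        rw [hd] at h4
        rcases Sym2.eq_iff.1 h4 with ⟨h5, -⟩ | ⟨h5, -⟩
        · exact κ.injective (Sum.inl_injective h5)
        · cases h5
      have h4 : ((En x).card : ℝ) ≤ 1 := by exact_mod_cast h3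
      linarith
    · rw [if_neg h1]
      split_ifs with h2
      · have h3 : En x = ∅ := filter_eq_empty_iff.2 fun u hu h4 => h1 ⟨u, hu, h4⟩
        rw [h3, card_empty]
        norm_num
      · have h3 : (vs H x ∪ vs H (f x)).card ≤ 4 :=
          (card_union_le _ _).trans (Nat.add_le_add (card_vs H x) (card_vs H (f x)))
        have h4 : ((vs H x ∪ vs H (f x)).card : ℝ) ≤ 4 := by exact_mod_cast h3
        linarith
  refine ⟨W \ univ.biUnion Sp, sdiff_subset, ?_, ?_⟩
  · have hcl : ∀ u ∈ W \ univ.biUnion Sp, ∀ d : H.Dart, u ∈ ({d.fst, d.snd} : Finset (Fin n)) →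
        Clean H κ f d := by
      intro u hu d hd t o y hy
      have h1 : ∀ x, u ∈ vs H x ∪ vs H (f x) → ∃ s y, s(x, f x) = s(y, opt H κ s y) := by
        intro x hx
        by_contra h2
        refine (mem_sdiff.1 hu).2 (mem_biUnion.2 ⟨x, mem_univ _, ?_⟩)
        simp only [Sp]
        rwa [if_neg h2]
      rcases hy with hy | hy
      · obtain ⟨s, z, h2⟩ := h1 (.inr (d, t, o)) (mem_union_left _ hd)
        rw [hy] at h2
        rcases Sym2.eq_iff.1 h2 with ⟨h3, h4⟩ | ⟨h3, h4⟩
        · exact ⟨s, Or.inl (by rw [h3, h4])⟩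
        · exact ⟨s, Or.inr (by rw [h3, h4])⟩
      · obtain ⟨s, z, h2⟩ := h1 y (mem_union_right _ (by rw [hy]; exact hd))
        rw [hy] at h2
        rcases Sym2.eq_iff.1 h2 with ⟨h3, h4⟩ | ⟨h3, h4⟩
        · exact ⟨s, Or.inr (by rw [h3, h4])⟩
        · exact ⟨s, Or.inl (by rw [h3, h4])⟩
    have hin : ∀ u ∈ W \ univ.biUnion Sp, ∀ d : H.Dart, d.fst = u →
        Tn f (.inr (d.symm, false, some true)) (.inr (d, false, some false)) := by
      intro u hu d hd
      refine inactive H κ f hf (u := u) (fun d' hd' => ⟨hcl u hu d' (by simp [hd']),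
        hcl u hu d'.symm (by simp [hd'])⟩) (fun h => ?_) n d hd d.snd.2
      have h1 : ∀ x, s(x, f x) ≠ s(.inl (κ u), aft H κ (κ u) 0) := by
        intro x hx
        refine (mem_sdiff.1 hu).2 (mem_biUnion.2 ⟨x, mem_univ _, ?_⟩)
        simp only [Sp]
        rw [if_pos ⟨false, .inl (κ u), hx⟩]
        exact mem_filter.2 ⟨(mem_sdiff.1 hu).1, hx⟩
      rcases h with h | h
      · exact h1 _ (by rw [h])
      · exact h1 _ (by rw [h, Sym2.eq_swap])
    intro u hu v hv _ hadj
    let d : H.Dart := ⟨(u, v), hadj⟩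
    exact no_edge H κ f hf (by omega) hcyc (d := d) (hcl u hu d (by simp [d]))
      (hcl u hu d.symm (by simp [d])) (hin u hu d rfl) (hin v hv d.symm rfl)
  · have h1 : W.card ≤ (W \ univ.biUnion Sp).card + ∑ x, (Sp x).card :=
      (card_le_card_sdiff_add_card).trans (Nat.add_le_add_left card_biUnion_le _)
    have h2 : (W.card : ℝ) ≤ (W \ univ.biUnion Sp).card + ∑ x, ((Sp x).card : ℝ) := by
      exact_mod_cast h1
    have h3 := sum_le_sum fun x (_ : x ∈ univ) => hSp x
    rw [sum_add_distrib, sum_const, card_univ, nsmul_eq_mul, mul_one, ← sum_div] at h3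
    linarith

end Pool.Agent.H480Z.SDP.Tsp
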