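import Pool.Agent.H480Z.SDP.StabAbs
import Pool.Agent.H480Z.SDP.TspGadget
import Pool.Agent.H480Z.SDP.TspDefs

set_option autoImplicit false
set_option linter.unusedSectionVars false

/-! Semidefinite relaxations of the travelling salesman polytope need exponential size. -/

namespace Pool.Agent.H480Z.SDP

open Finset Tsp

theorem sum_tourVec {N : ℕ} (hN : 3 ≤ N) (f : Equiv.Perm (Fin N)) (hf : Cyc f)
    (w : Sym2 (Fin N) → ℝ) : ∑ e, w e * tourVec f e = ∑ v, w s(v, f v) := by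
  classical
  have h1 := hf.sq_ne (by rwa [Fintype.card_fin])
  have h2 : Function.Injective fun v => s(v, f v) := by
    intro v v' h
    rcases Sym2.eq_iff.1 h with ⟨h3, -⟩ | ⟨h3, h4⟩
    · exact h3
    · exact absurd (by rw [h4, ← h3]) (h1 v)
  rw [← sum_image (s := univ) (g := fun v => s(v, f v)) (f := w) (fun a _ b _ h => h2 h)]
  rw [← sum_subset (subset_univ (univ.image fun v => s(v, f v)))]
  · refine sum_congr rfl fun e he => ?_
    obtain ⟨v, -, hv⟩ := mem_image.1 he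
    unfold tourVec
    rw [if_pos ⟨v, hv.symm⟩, mul_one]
  · intro e _ he
    unfold tourVec
    rw [if_neg, mul_zero]
    rintro ⟨v, hv⟩
    exact he (mem_image.2 ⟨v, mem_univ _, hv.symm⟩)

theorem cyc_congr {V V' : Type} (φ : V ≃ V') (f : Equiv.Perm V) (hf : Cyc f) :
    Cyc (φ.permCongr f) := by
  intro x y
  obtain ⟨i, hi⟩ := hf (φ.symm x) (φ.symm y)
  refine ⟨i, ?_⟩
  have h : Function.Semiconj φ f (φ.permCongr f) := fun a => by simp
  have h1 := (h.iterate_right i) (φ.symm x)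
  rw [hi, φ.apply_symm_apply, φ.apply_symm_apply] at h1
  exact h1.symm

theorem gadget {n N Δ : ℕ} (H : SimpleGraph (Fin n)) (hΔ : ∀ v, (H.neighborSet v).ncard ≤ Δ)
    (hn : 3 ≤ n) (hN : (1 + 6 * Δ) * n ≤ N) :
    ∃ (tour : Finset (Fin n) → Equiv.Perm (Fin N)) (c : Finset (Fin n) → Sym2 (Fin N) → ℝ),
      (∀ W e, 1 ≤ c W e ∧ c W e ≤ 2) ∧ (∀ I : Finset (Fin n), H.IsIndepSet I → Cyc (tour I)) ∧
      ∀ W : Finset (Fin n), (∀ w ∈ W, ∃ v, H.Adj w v) →
        (∀ I : Finset (Fin n), H.IsIndepSet I →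
          ∑ x, c W s(x, tour I x) = N + ((W.card : ℝ) - (W ∩ I).card) / 4) ∧
        ∀ f : Equiv.Perm (Fin N), Cyc f → ∃ I ⊆ W, H.IsIndepSet I ∧
          N + ((W.card : ℝ) - I.card) / 4 ≤ ∑ x, c W s(x, f x) := by
  classical
  have hD : Fintype.card H.Dart ≤ Δ * n := by
    rw [SimpleGraph.dart_card_eq_sum_degrees]
    refine (sum_le_sum (g := fun _ => Δ) fun v _ => ?_).trans (le_of_eq ?_)
    · refine le_trans (le_of_eq ?_) (hΔ v)
      rw [← SimpleGraph.card_neighborFinset_eq_degree, SimpleGraph.neighborFinset_def,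
        Set.ncard_eq_toFinset_card']
    · rw [sum_const, card_univ, Fintype.card_fin, smul_eq_mul, mul_comm]
  obtain ⟨k, hk⟩ : ∃ k, N = k + Fintype.card H.Dart * 6 := ⟨N - Fintype.card H.Dart * 6, by
    have : (1 + 6 * Δ) * n = n + 6 * (Δ * n) := by ring
    omega⟩
  have hnk : n ≤ k := by
    have : (1 + 6 * Δ) * n = n + 6 * (Δ * n) := by ring
    omega
  let κ : Fin n ↪ Fin k := Fin.castLEEmb hnk
  have hcard : Fintype.card (City (k := k) H) = N := by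
    rw [hk, Fintype.card_sum, Fintype.card_fin, Fintype.card_prod, Fintype.card_prod,
      Fintype.card_option, Fintype.card_bool]
  let φ : City (k := k) H ≃ Fin N := Fintype.equivFinOfCardEq hcard
  have h1 : ∀ I : Finset (Fin n), ∃ f : Equiv.Perm (City (k := k) H), H.IsIndepSet I →
      (∀ x, f x = nxt H κ I x) ∧ Cyc f := by
    intro I
    by_cases hI : H.IsIndepSet I
    · obtain ⟨f, hf⟩ := exists_tour H κ (by omega) hI
      exact ⟨f, fun _ => hf⟩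
    · exact ⟨1, fun h => absurd h hI⟩
  choose t ht using h1
  have hsum : ∀ W (f : Equiv.Perm (City (k := k) H)),
      ∑ x, cost H κ W (Sym2.map φ.symm s(x, φ.permCongr f x)) = ∑ x, cost H κ W s(x, f x) := by
    intro W f
    rw [← φ.sum_comp]
    refine sum_congr rfl fun x _ => ?_
    simp
  refine ⟨fun I => φ.permCongr (t I), fun W e => cost H κ W (Sym2.map φ.symm e),
    fun W e => cost_mem H κ W _, fun I hI => cyc_congr φ _ (ht I hI).2, fun W hW =>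
      ⟨fun I hI => ?_, fun f hf => ?_⟩⟩
  · rw [hsum, ← hcard, ← cost_nxt H κ hW]
    exact sum_congr rfl fun x _ => by rw [(ht I hI).1]
  · obtain ⟨I, h2, h3, h4⟩ := sound H κ (by omega) hW (φ.symm.permCongr f) (cyc_congr _ f hf)
    refine ⟨I, h2, h3, ?_⟩
    rw [hcard, ← hsum] at h4
    refine h4.trans (le_of_eq (sum_congr rfl fun x _ => ?_))
    simp

theorem tsp_main : ∃ ε : ℝ, 0 < ε ∧ ∃ c : ℝ, 0 < c ∧ ∃ N₀ : ℕ, ∀ N ≥ N₀,
    ∀ (r : ℕ) (K : Set (Sym2 (Fin N) → ℝ)), IsShadow r K →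
      (∀ f : Equiv.Perm (Fin N), f.IsCycleOn Set.univ → tourVec f ∈ K) →
      (∀ w : Sym2 (Fin N) → ℝ, (∀ e, 1 ≤ w e ∧ w e ≤ 2) → ∀ p ∈ K,
        ∃ f : Equiv.Perm (Fin N), f.IsCycleOn Set.univ ∧
          ∑ e, w e * tourVec f e ≤ (1 + ε) * ∑ e, w e * p e) →
      (2 : ℝ) ^ (c * N) ≤ r := by
  classical
  obtain ⟨c, hc, δ, hδ, Δ, N₀, hmain⟩ := stab_abs
  obtain ⟨L, hL⟩ : ∃ L : ℕ, L = 1 + 6 * Δ := ⟨_, rfl⟩
  have hL0 : 0 < L := by omega
  have hLR : (1 : ℝ) ≤ L := by exact_mod_cast hL0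
  refine ⟨δ / (16 * L), by positivity, c / (2 * L), by positivity, L * (N₀ + 3),
    fun N hN r K hK hT hA => ?_⟩
  obtain ⟨n, hn⟩ : ∃ n, n = N / L := ⟨_, rfl⟩
  have hn1 : N₀ + 3 ≤ n := by
    rw [hn, Nat.le_div_iff_mul_le hL0]
    linarith
  have hnN : L * n ≤ N := hn ▸ Nat.mul_div_le N _
  have hNn : N < L * (n + 1) := hn ▸ Nat.lt_mul_div_succ N hL0
  have hN2 : (N : ℝ) ≤ 2 * L * n := by
    have h1 : L * (n + 1) ≤ L * (2 * n) := Nat.mul_le_mul_left _ (by omega)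
    have h2 : N ≤ 2 * L * n := by nlinarith
    exact_mod_cast h2
  have hnN' : n ≤ N := le_trans (Nat.le_mul_of_pos_left n hL0) hnN
  have hN3 : 3 ≤ N := by omega
  obtain ⟨H, hΔ, hH⟩ := hmain n (by omega)
  obtain ⟨tour, cs, hcs, htour, hW⟩ := gadget (N := N) H hΔ (by omega) (hL ▸ hnN)
  obtain ⟨m, Am, π, rfl⟩ := hK
  have h1 : ∀ I : Finset (Fin n), ∃ y, H.IsIndepSet I →
      (Am y).PosSemidef ∧ π y = tourVec (tour I) := by
    intro I
    by_cases hI : H.IsIndepSet I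
    · obtain ⟨y, hy⟩ := hT _ ((cyc_iff _).2 (htour I hI))
      exact ⟨y, fun _ => hy⟩
    · exact ⟨0, fun h => absurd h hI⟩
  choose e he using h1
  by_contra hr
  rw [not_le] at hr
  have hr2 : (r : ℝ) < 2 ^ (c * n) := by
    refine hr.trans_le (Real.rpow_le_rpow_of_exponent_le (by norm_num) ?_)
    rw [div_mul_eq_mul_div, div_le_iff₀ (by positivity)]
    nlinarith
  obtain ⟨W, p, hp, hWn, hℓ⟩ := hH r m Am e (fun I hI => (he I hI).1) hr2
  obtain ⟨hW1, hW2⟩ := hW W hWn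
  let ℓ : (Fin m → ℝ) →ᵃ[ℝ] ℝ := AffineMap.const ℝ _ ((W.card : ℝ) + 4 * N) -
    (∑ x : Sym2 (Fin N), (4 * cs W x) •
      (LinearMap.proj x : (Sym2 (Fin N) → ℝ) →ₗ[ℝ] ℝ)).toAffineMap.comp π
  have hℓy : ∀ y, ℓ y = (W.card : ℝ) + 4 * N - 4 * ∑ x, cs W x * π y x := by
    intro y
    simp only [ℓ, AffineMap.coe_sub, Pi.sub_apply, AffineMap.const_apply, AffineMap.comp_apply,
      LinearMap.coe_toAffineMap, LinearMap.sum_apply, LinearMap.smul_apply, LinearMap.proj_apply,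
      smul_eq_mul, mul_sum, mul_assoc]
  obtain ⟨f, hf, hfc⟩ := hA (cs W) (hcs W) (π p) ⟨p, hp, rfl⟩
  rw [cyc_iff] at hf
  rw [sum_tourVec hN3 f hf] at hfc
  obtain ⟨I, hIW, hI, hIc⟩ := hW2 f hf
  have h2 := hℓ ℓ (fun I hI => by
    rw [hℓy, (he I hI).2, sum_tourVec hN3 _ (htour I hI), hW1 I hI]
    ring) I hIW hI
  rw [hℓy] at h2
  have h3 : (W.card : ℝ) ≤ N := by
    have := (card_le_univ W).trans_eq (Fintype.card_fin n)
    exact_mod_cast this.trans hnN'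
  have h4 : (0 : ℝ) ≤ I.card := Nat.cast_nonneg _
  have hnR : (0 : ℝ) < n := by exact_mod_cast (by omega : 0 < n)
  have h5 : (0 : ℝ) < δ * n := by positivity
  set P := ∑ x, cs W x * π p x with hP
  have h6 : δ / (16 * L) * P ≤ δ * n / 4 - δ * n / 16 := by
    have h7 : P ≤ 3 * L * n := by nlinarith
    rw [div_mul_eq_mul_div, div_le_iff₀ (by positivity)]
    nlinarith
  nlinarith

end Pool.Agent.H480Z.SDP
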